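import Mathlib
import Pool.Agent.Helper28.NT.Sing

/-!
# NT: the singular conics of the pencil are the three given ones
-/

set_option linter.unusedSectionVars false

namespace Pool.Agent.NT28

universe u

namespace Pts

variable {k N : Type u} [Field k] [Field N] [CharZero N] [Algebra k N] (D : Pts k N)

/-- The points of the discriminant curve on the line orthogonal to `f` are the three parameters `e 0 1`, `e 0 2`,
`e 0 3`. -/
theorem three {e : Fin 3 → N} (he : dot e D.f = 0) (hd : dl D.QN e = 0) :
    ∃ j : Fin 4, 0 ≠ j ∧ ∃ c : N, ∀ a, e a = c * D.e 0 j a := by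
  rcases D.sing he hd (i := 0) (j := 1) (l := 2) (by decide) (by decide) (by decide) with h | h | h
  · exact ⟨1, by decide, h⟩
  · exact ⟨2, by decide, h⟩
  · obtain ⟨c, hc⟩ := h
    obtain ⟨c', hc'⟩ := D.e_compl (i := 1) (j := 2) (l := 0) (m := 3) (by decide) (by decide) (by decide) (by decide)
      (by decide) (by decide)
    exact ⟨3, by decide, c * c', fun a => by rw [hc, hc']; ring⟩

/-- The three parameters are pairwise not proportional. -/
theorem three_ne {j j' : Fin 4} (hj : 0 ≠ j) (hj' : 0 ≠ j') (h : j ≠ j') (c : N) :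
    ¬ ∀ a, D.e 0 j a = c * D.e 0 j' a := fun h1 => D.e_not_prop hj hj' h c h1

/-- The index of a point of the discriminant curve is unique. -/
theorem three_unique {e : Fin 3 → N} (he : e ≠ 0) {j j' : Fin 4} (hj : 0 ≠ j) (hj' : 0 ≠ j')
    (h : ∃ c : N, ∀ a, e a = c * D.e 0 j a) (h' : ∃ c : N, ∀ a, e a = c * D.e 0 j' a) : j = j' := by
  by_contra hne
  obtain ⟨c, hc⟩ := h
  obtain ⟨c', hc'⟩ := h'
  have hc0 : c ≠ 0 := by
    rintro rfl
    apply he
    funext a
    rw [hc a]
    simp
  apply D.three_ne hj hj' hne (c' / c)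
  intro a
  have h1 := hc a
  rw [hc' a] at h1
  field_simp
  linear_combination - h1

end Pts

end Pool.Agent.NT28
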