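import Mathlib
import Pool.Agent.Helper28.NT.Lin
import Pool.Agent.Helper28.NT.Defs2

/-!
# NT: smooth plane cubics are irreducible; forms which vanish at a generic point
-/

set_option linter.unusedSectionVars false

namespace Pool.Agent.NT28

open MvPolynomial

universe u

section forms

variable {k : Type u} [Field k]

lemma top_mul {σ : Type*} (a b : MvPolynomial σ k) {m n : ℕ} (hm : a.totalDegree ≤ m) (hn : b.totalDegree ≤ n) :
    homogeneousComponent (m + n) (a * b) = homogeneousComponent m a * homogeneousComponent n b := by
  classical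
  ext d
  rw [coeff_homogeneousComponent, coeff_mul, coeff_mul]
  by_cases hd : d.degree = m + n
  · rw [if_pos hd]
    refine Finset.sum_congr rfl fun x hx => ?_
    rw [Finset.HasAntidiagonal.mem_antidiagonal] at hx
    have hdeg : x.1.degree + x.2.degree = m + n := by
      rw [← hd, ← hx, map_add]
    rw [coeff_homogeneousComponent, coeff_homogeneousComponent]
    rcases lt_trichotomy x.1.degree m with h | h | h
    · have h2 : n < x.2.degree := by omega
      have h3 : coeff x.2 b = 0 := coeff_eq_zero_of_totalDegree_lt (lt_of_le_of_lt hn (by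
        rwa [Finsupp.degree_apply] at h2))
      rw [h3, if_neg (by omega), if_neg (by omega)]
      simp
    · rw [if_pos h, if_pos (by omega)]
    · have h3 : coeff x.1 a = 0 := coeff_eq_zero_of_totalDegree_lt (lt_of_le_of_lt hm (by
        rwa [Finsupp.degree_apply] at h))
      rw [h3, if_neg (by omega)]
      simp
  · rw [if_neg hd]
    symm
    apply Finset.sum_eq_zero
    intro x hx
    rw [Finset.HasAntidiagonal.mem_antidiagonal] at hx
    have hdeg : x.1.degree + x.2.degree = d.degree := by
      rw [← hx, map_add]
    rw [coeff_homogeneousComponent, coeff_homogeneousComponent]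
    by_cases h1 : x.1.degree = m
    · rw [if_neg (show ¬ x.2.degree = n by omega), mul_zero]
    · rw [if_neg h1, zero_mul]

/-- Scaling. -/
lemma eval_scale {n : ℕ} {B : MvPolynomial (Fin 3) k} (hB : B.IsHomogeneous n) (r : k) (x : Fin 3 → k) :
    eval (fun i => r * x i) B = r ^ n * eval x B := by
  rw [eval_eq', eval_eq', Finset.mul_sum]
  apply Finset.sum_congr rfl
  intro d hd
  have h1 : ∑ i, d i = n := by
    have := hB (mem_support_iff.mp hd)
    rw [Finsupp.weight_apply, Finsupp.sum_fintype _ _ (fun i => by simp)] at this
    simpa using this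
  simp only [mul_pow, Finset.prod_mul_distrib]
  rw [Finset.prod_pow_eq_pow_sum, h1]
  ring

variable [IsAlgClosed k]

/-- A form of positive degree has a zero on every line. -/
lemma zero_line {n : ℕ} (hn : 0 < n) {B : MvPolynomial (Fin 3) k} (hB : B.IsHomogeneous n) (u w : Fin 3 → k) :
    ∃ a b : k, (a ≠ 0 ∨ b ≠ 0) ∧ eval (fun i => a * u i + b * w i) B = 0 := by
  have : Infinite k := IsAlgClosed.instInfinite
  let ρ : MvPolynomial (Fin 3) k →ₐ[k] Polynomial k :=
    aeval (fun i => Polynomial.C (u i) + Polynomial.X * Polynomial.C (w i))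
  have hρ : ∀ t P, (ρ P).eval t = eval (fun i => u i + t * w i) P := by
    intro t P
    change Polynomial.eval t (aeval (fun i => Polynomial.C (u i) + Polynomial.X * Polynomial.C (w i)) P) = _
    have h1 : (Polynomial.evalRingHom t).comp
        ((aeval (fun i => Polynomial.C (u i) + Polynomial.X * Polynomial.C (w i)) :
          MvPolynomial (Fin 3) k →ₐ[k] Polynomial k) : MvPolynomial (Fin 3) k →+* Polynomial k) =
        eval (fun i => u i + t * w i) := by
      apply MvPolynomial.ringHom_ext
      · intro r
        simp
      · intro i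
        simp
        ring
    exact congrFun (congrArg DFunLike.coe h1) P
  by_cases hr : ∃ t, (ρ B).eval t = 0
  · obtain ⟨t, ht⟩ := hr
    refine ⟨1, t, Or.inl one_ne_zero, ?_⟩
    rw [hρ] at ht
    rw [← ht]
    simp
  · push Not at hr
    -- the polynomial is constant
    have hdeg : (ρ B).degree ≤ 0 := by
      by_contra hcon
      push Not at hcon
      obtain ⟨t, ht⟩ := IsAlgClosed.exists_root (ρ B) (ne_of_gt hcon)
      exact hr t ht
    have hc := Polynomial.eq_C_of_degree_le_zero hdeg
    set c := (ρ B).coeff 0 with hcc
    have hval : ∀ t, eval (fun i => u i + t * w i) B = c := by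
      intro t
      rw [← hρ, hc, Polynomial.eval_C]
    let ρ' : MvPolynomial (Fin 3) k →ₐ[k] Polynomial k :=
      aeval (fun i => Polynomial.X * Polynomial.C (u i) + Polynomial.C (w i))
    have hρ' : ∀ t P, (ρ' P).eval t = eval (fun i => t * u i + w i) P := by
      intro t P
      change Polynomial.eval t (aeval (fun i => Polynomial.X * Polynomial.C (u i) + Polynomial.C (w i)) P) = _
      have h1 : (Polynomial.evalRingHom t).comp
          ((aeval (fun i => Polynomial.X * Polynomial.C (u i) + Polynomial.C (w i)) :
            MvPolynomial (Fin 3) k →ₐ[k] Polynomial k) : MvPolynomial (Fin 3) k →+* Polynomial k) =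
          eval (fun i => t * u i + w i) := by
        apply MvPolynomial.ringHom_ext
        · intro r
          simp
        · intro i
          simp
          ring
      exact congrFun (congrArg DFunLike.coe h1) P
    have h2 : Polynomial.X * (ρ' B - Polynomial.C c * Polynomial.X ^ n) = 0 := by
      apply Polynomial.funext
      intro t
      rw [Polynomial.eval_mul, Polynomial.eval_X, Polynomial.eval_zero, Polynomial.eval_sub, Polynomial.eval_mul,
        Polynomial.eval_C, Polynomial.eval_pow, Polynomial.eval_X, hρ']
      by_cases ht : t = 0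
      · rw [ht, zero_mul]
      · have h3 : (fun i => t * u i + w i) = fun i => t * (u i + t⁻¹ * w i) := by
          funext i
          field_simp
        rw [h3, eval_scale hB, hval]
        ring
    have h4 : ρ' B - Polynomial.C c * Polynomial.X ^ n = 0 :=
      (mul_eq_zero.mp h2).resolve_left Polynomial.X_ne_zero
    have h5 : (ρ' B).eval 0 = 0 := by
      rw [sub_eq_zero.mp h4]
      simp [hn.ne']
    rw [hρ'] at h5
    refine ⟨0, 1, Or.inr one_ne_zero, ?_⟩
    have h6 : (fun i => 0 * u i + 1 * w i) = fun i => 0 * u i + w i := by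
      funext i
      ring
    rw [h6]
    exact h5

variable [CharZero k]

/-- The two zeros of a linear form. -/
lemma line_basis {L : MvPolynomial (Fin 3) k} (hL : L.IsHomogeneous 1) : ∃ u w : Fin 3 → k, crs u w ≠ 0 ∧
    ∀ a b : k, eval (fun i => a * u i + b * w i) L = 0 := by
  have hs : ∀ x : Fin 3 → k, eval x L = dot (Pool.Agent.Helper83.KPA.lf L) x := by
    intro x
    have h1 := Pool.Agent.Helper83.KPA.lf_spec hL (R := k) x
    rw [MvPolynomial.aeval_eq_eval] at h1
    simp only [Algebra.algebraMap_self, RingHom.id_apply] at h1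
    unfold dot
    exact h1
  set α := Pool.Agent.Helper83.KPA.lf L with hα
  obtain ⟨u, w, h1, h2, h3⟩ : ∃ u w : Fin 3 → k, crs u w ≠ 0 ∧ dot α u = 0 ∧ dot α w = 0 := by
    by_cases h0 : α 0 = 0
    · by_cases h1 : α 1 = 0
      · refine ⟨![1, 0, 0], ![0, 1, 0], fun h => ?_, ?_, ?_⟩
        · have := congrFun h 2
          simp [crs2] at this
        · simp [dot, h0]
        · simp [dot, h1]
      · refine ⟨![1, 0, 0], ![0, - α 2, α 1], fun h => ?_, ?_, ?_⟩
        · have := congrFun h 1
          simp [crs1] at this
          exact h1 this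
        · simp [dot, h0]
        · simp only [dot, Matrix.cons_val_zero, Matrix.cons_val_one, Matrix.cons_val]
          ring
    · refine ⟨![- α 1, α 0, 0], ![- α 2, 0, α 0], fun h => ?_, ?_, ?_⟩
      · have := congrFun h 0
        simp [crs0] at this
        exact h0 this
      · simp only [dot, Matrix.cons_val_zero, Matrix.cons_val_one, Matrix.cons_val]
        ring
      · simp only [dot, Matrix.cons_val_zero, Matrix.cons_val_one, Matrix.cons_val]
        ring
  refine ⟨u, w, h1, fun a b => ?_⟩
  rw [hs]
  unfold dot at h2 h3 ⊢
  linear_combination a * h2 + b * h3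

/-- A linear form and a form of positive degree have a common zero. -/
lemma common_zero {L B : MvPolynomial (Fin 3) k} (hL : L.IsHomogeneous 1) {n : ℕ} (hn : 0 < n)
    (hB : B.IsHomogeneous n) : ∃ p : Fin 3 → k, p ≠ 0 ∧ eval p L = 0 ∧ eval p B = 0 := by
  obtain ⟨u, w, h1, h2⟩ := line_basis hL
  obtain ⟨a, b, hab, h3⟩ := zero_line hn hB u w
  refine ⟨fun i => a * u i + b * w i, ?_, h2 a b, h3⟩
  intro h
  rcases hab with ha | hb
  · apply h1
    have e : ∀ i, u i = (- b / a) * w i := by
      intro i
      have := congrFun h i
      simp only [Pi.zero_apply] at this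
      field_simp
      linear_combination this
    apply vec_ext <;> simp only [crs0, crs1, crs2, Pi.zero_apply, e] <;> ring
  · apply h1
    have e : ∀ i, w i = (- a / b) * u i := by
      intro i
      have := congrFun h i
      simp only [Pi.zero_apply] at this
      field_simp
      linear_combination this
    exact crs_of_prop e

/-- A smooth plane cubic is irreducible. -/
theorem irr_of_smoC {P : MvPolynomial (Fin 3) k} (hP : P.IsHomogeneous 3) (h : SmoC P) : Irreducible P := by
  have hP0 : P ≠ 0 := by
    rintro rfl
    have h1 := h ![1, 0, 0] (fun i => by simp)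
    have := congrFun h1 0
    simp at this
  have hdeg : P.totalDegree = 3 := hP.totalDegree hP0
  have hself : homogeneousComponent 3 P = P := homogeneousComponent_eq_self hP
  have key : ∀ (L B : MvPolynomial (Fin 3) k) (n : ℕ), 0 < n → L.IsHomogeneous 1 → B.IsHomogeneous n →
      P ≠ L * B := by
    intro L B n hn hL hB hPLB
    obtain ⟨p, hp0, hp1, hp2⟩ := common_zero hL hn hB
    apply hp0
    apply h
    intro i
    rw [hPLB, Derivation.leibniz, map_add, smul_eq_mul, smul_eq_mul, map_mul, map_mul, hp1, hp2]
    ring
  constructor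
  · intro hu
    rw [MvPolynomial.isUnit_iff_totalDegree_of_isReduced] at hu
    omega
  · intro a b hab
    have ha0 : a ≠ 0 := by
      rintro rfl
      exact hP0 (by rw [hab, zero_mul])
    have hb0 : b ≠ 0 := by
      rintro rfl
      exact hP0 (by rw [hab, mul_zero])
    have hd : a.totalDegree + b.totalDegree = 3 := by
      rw [← totalDegree_mul_of_isDomain ha0 hb0, ← hab, hdeg]
    by_contra hcon
    rw [not_or] at hcon
    have hunit : ∀ q : MvPolynomial (Fin 3) k, q ≠ 0 → q.totalDegree = 0 → IsUnit q := by
      intro q hq0 hq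
      rw [totalDegree_eq_zero_iff_eq_C] at hq
      rw [hq]
      refine (isUnit_iff_ne_zero.mpr ?_).map C
      intro h0
      apply hq0
      rw [hq, h0, map_zero]
    have ha1 : a.totalDegree ≠ 0 := fun h0 => hcon.1 (hunit a ha0 h0)
    have hb1 : b.totalDegree ≠ 0 := fun h0 => hcon.2 (hunit b hb0 h0)
    have hfac : P = homogeneousComponent a.totalDegree a * homogeneousComponent b.totalDegree b := by
      rw [← top_mul a b le_rfl le_rfl, hd, ← hab, hself]
    rcases (by omega : a.totalDegree = 1 ∨ b.totalDegree = 1) with h1 | h1
    · refine key _ _ b.totalDegree (by omega) ?_ (homogeneousComponent_isHomogeneous _ _) hfac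
      rw [h1]
      exact homogeneousComponent_isHomogeneous _ _
    · refine key _ _ a.totalDegree (by omega) ?_ (homogeneousComponent_isHomogeneous _ _)
        (by rw [mul_comm]; exact hfac)
      rw [h1]
      exact homogeneousComponent_isHomogeneous _ _

end forms

/-- A form which vanishes at a generic point of the plane is zero. -/
theorem form_zero {k F : Type*} [Field k] [Infinite k] [Field F] [Algebra k F] {s t : F}
    (h : AlgebraicIndependent k ![s, t]) {n : ℕ} {G : MvPolynomial (Fin 3) k} (hG : G.IsHomogeneous n)
    (h0 : aeval ![s, t, 1] G = 0) : G = 0 := by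
  -- the affine polynomial
  let ρ : MvPolynomial (Fin 3) k →ₐ[k] MvPolynomial (Fin 2) k := aeval ![X 0, X 1, 1]
  have h1 : aeval ![s, t] (ρ G) = aeval ![s, t, 1] G := by
    have h2 : ((aeval ![s, t] : MvPolynomial (Fin 2) k →ₐ[k] F).comp ρ) = aeval ![s, t, 1] := by
      apply MvPolynomial.algHom_ext
      intro i
      fin_cases i <;> simp [ρ]
    exact congrFun (congrArg DFunLike.coe h2) G
  have h2 : ρ G = 0 := by
    apply h
    rw [h1, h0, map_zero]
  have h3 : ∀ x y : k, eval ![x, y, 1] G = 0 := by
    intro x y
    have h4 : ((aeval ![x, y] : MvPolynomial (Fin 2) k →ₐ[k] k).comp ρ) = aeval ![x, y, 1] := by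
      apply MvPolynomial.algHom_ext
      intro i
      fin_cases i <;> simp [ρ]
    have h5 := congrFun (congrArg DFunLike.coe h4) G
    simp only [AlgHom.comp_apply, h2, map_zero] at h5
    rw [← MvPolynomial.aeval_eq_eval]
    exact h5.symm
  have h6 : X 2 * G = 0 := by
    apply MvPolynomial.funext
    intro x
    rw [map_mul, eval_X, map_zero]
    by_cases hx : x 2 = 0
    · rw [hx, zero_mul]
    · have h7 : x = fun i => x 2 * ![x 0 / x 2, x 1 / x 2, 1] i := by
        funext i
        fin_cases i
        · simp only [Fin.zero_eta, Matrix.cons_val_zero]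
          field_simp
        · simp only [Fin.mk_one, Matrix.cons_val_one, Matrix.cons_val_zero]
          field_simp
        · simp only [Fin.reduceFinMk, Matrix.cons_val]
          ring
      have h8 : eval x G = x 2 ^ n * eval ![x 0 / x 2, x 1 / x 2, 1] G := by
        conv_lhs => rw [h7]
        exact eval_scale hG (x 2) _
      rw [h8, h3]
      ring
  exact (mul_eq_zero.mp h6).resolve_left (X_ne_zero 2)

end Pool.Agent.NT28
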