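import Mathlib
import Pool.Agent.Helper28.NT.Defs4
import Pool.Agent.Helper28.NT.Pts
import Pool.Agent.Helper40.NT.L1
import Pool.Agent.Helper70.KX.Ind
import Pool.Agent.Helper98.NT.Irr

/-!
# NT: the coordinates `z`, `w` are algebraically independent
-/

set_option linter.unusedSectionVars false

namespace Pool.Agent.NT28

open MvPolynomial

universe u

section rel

variable {k : Type u} [Field k]

/-- Scaling. -/
lemma aeval_scale {σ : Type*} [Fintype σ] {R : Type*} [CommRing R] [Algebra k R] {n : ℕ} {B : MvPolynomial σ k}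
    (hB : B.IsHomogeneous n) (r : R) (x : σ → R) : aeval (fun i => r * x i) B = r ^ n * aeval x B := by
  rw [MvPolynomial.aeval_def, MvPolynomial.aeval_def, eval₂_eq', eval₂_eq', Finset.mul_sum]
  apply Finset.sum_congr rfl
  intro d hd
  have h1 : ∑ i, d i = n := by
    have := hB (mem_support_iff.mp hd)
    rw [Finsupp.weight_apply, Finsupp.sum_fintype _ _ (fun i => by simp)] at this
    simpa using this
  simp only [mul_pow, Finset.prod_mul_distrib]
  rw [Finset.prod_pow_eq_pow_sum, h1]
  ring

lemma exists_top {σ : Type*} {H : MvPolynomial σ k} (hH : H ≠ 0) : homogeneousComponent H.totalDegree H ≠ 0 := by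
  classical
  have hne : H.support.Nonempty := by
    rw [Finset.nonempty_iff_ne_empty]
    intro h
    exact hH (support_eq_empty.mp h)
  obtain ⟨d, hd, hd'⟩ := Finset.exists_mem_eq_sup H.support hne fun m => Multiset.card (Finsupp.toMultiset m)
  intro h0
  have h1 : coeff d (homogeneousComponent H.totalDegree H) = coeff d H := by
    rw [coeff_homogeneousComponent, if_pos]
    rw [totalDegree_eq, hd', Finsupp.card_toMultiset, Finsupp.degree_apply]
    rfl
  rw [h0, coeff_zero] at h1
  exact (mem_support_iff.mp hd) h1.symm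

variable [IsAlgClosed k] [CharZero k]

/-- Two elements of a domain with a homogeneous relation are proportional. -/
lemma prop_of_rel {B : Type*} [CommRing B] [IsDomain B] [Algebra k B] {d : ℕ} {H : MvPolynomial (Fin 2) k}
    (hH : H ≠ 0) (hd : H.IsHomogeneous d) {x y : B} (h : aeval ![x, y] H = 0) :
    ∃ a b : k, (a ≠ 0 ∨ b ≠ 0) ∧ algebraMap k B a * x + algebraMap k B b * y = 0 := by
  have : Infinite k := IsAlgClosed.instInfinite
  by_cases hy : y = 0
  · exact ⟨0, 1, Or.inr one_ne_zero, by rw [hy]; simp⟩
  let E := FractionRing B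
  let i : B →ₐ[k] E := IsScalarTower.toAlgHom k B E
  have hi : Function.Injective i := IsFractionRing.injective B E
  have hy' : i y ≠ 0 := fun h0 => hy (hi (by rw [h0, map_zero]))
  let p : Polynomial k := aeval ![Polynomial.X, 1] H
  have hp : Polynomial.aeval (i x / i y) p = 0 := by
    have h1 : aeval ![i x, i y] H = 0 := by
      have h2 : ((i.comp (aeval ![x, y] : MvPolynomial (Fin 2) k →ₐ[k] B))) = aeval ![i x, i y] := by
        apply MvPolynomial.algHom_ext
        intro j
        fin_cases j <;> simp
      rw [← h2, AlgHom.comp_apply, h, map_zero]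
    have h3 : ![i x, i y] = fun j => i y * ![i x / i y, 1] j := by
      funext j
      fin_cases j
      · simp only [Fin.zero_eta, Matrix.cons_val_zero]
        rw [mul_comm, div_mul_cancel₀ _ hy']
      · simp
    rw [h3, aeval_scale hd] at h1
    have h4 := (mul_eq_zero.mp h1).resolve_left (pow_ne_zero _ hy')
    have h5 : ((Polynomial.aeval (i x / i y)).comp (aeval ![Polynomial.X, 1] :
        MvPolynomial (Fin 2) k →ₐ[k] Polynomial k)) = aeval ![i x / i y, 1] := by
      apply MvPolynomial.algHom_ext
      intro j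
      fin_cases j <;> simp
    have h6 := congrFun (congrArg DFunLike.coe h5) H
    rw [AlgHom.comp_apply] at h6
    exact h6.trans h4
  have hp0 : p ≠ 0 := by
    intro h0
    have h1 : ∀ x : k, eval ![x, 1] H = 0 := by
      intro x
      have h5 : ((Polynomial.aeval x).comp (aeval ![Polynomial.X, 1] :
          MvPolynomial (Fin 2) k →ₐ[k] Polynomial k)) = aeval ![x, 1] := by
        apply MvPolynomial.algHom_ext
        intro j
        fin_cases j <;> simp
      have h6 := congrFun (congrArg DFunLike.coe h5) H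
      rw [AlgHom.comp_apply] at h6
      rw [← MvPolynomial.aeval_eq_eval, ← h6]
      change Polynomial.aeval x p = 0
      rw [h0, map_zero]
    have h2 : X 1 * H = 0 := by
      apply MvPolynomial.funext
      intro v
      rw [map_mul, eval_X, map_zero]
      by_cases hv : v 1 = 0
      · rw [hv, zero_mul]
      · have h7 : v = fun j => v 1 * ![v 0 / v 1, 1] j := by
          funext j
          fin_cases j
          · simp only [Fin.zero_eta, Matrix.cons_val_zero]
            field_simp
          · simp
        have h8 : eval v H = v 1 ^ d * eval ![v 0 / v 1, 1] H := by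
          conv_lhs => rw [h7]
          rw [← MvPolynomial.aeval_eq_eval, ← MvPolynomial.aeval_eq_eval]
          exact aeval_scale hd (v 1) _
        rw [h8, h1]
        ring
    exact hH ((mul_eq_zero.mp h2).resolve_left (X_ne_zero 1))
  have halg : IsAlgebraic k (i x / i y) := ⟨p, hp0, hp⟩
  obtain ⟨r, hr⟩ := minpoly.mem_range_of_degree_eq_one k (i x / i y)
    (IsAlgClosed.degree_eq_one_of_irreducible k (minpoly.irreducible halg.isIntegral))
  refine ⟨1, - r, Or.inl one_ne_zero, ?_⟩
  apply hi
  rw [map_add, map_mul, map_mul, map_zero, AlgHom.commutes, AlgHom.commutes, map_neg, hr, map_one, one_mul, neg_mul,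
    div_mul_cancel₀ _ hy', add_neg_cancel]

/-- The ratios of a net of cubics with an irreducible member are algebraically independent. -/
theorem ratio_ind {F : Type*} [Field F] [Algebra k F] {s t : F} (hst : AlgebraicIndependent k ![s, t])
    {g h₁ h₂ : MvPolynomial (Fin 3) k} (hg : g.IsHomogeneous 3) (hh₁ : h₁.IsHomogeneous 3)
    (hh₂ : h₂.IsHomogeneous 3) (hirr : Irreducible g)
    (ind : ∀ a b c : k, C a * g + C b * h₁ + C c * h₂ = 0 → a = 0 ∧ b = 0 ∧ c = 0) :
    AlgebraicIndependent k ![aeval ![s, t, 1] h₁ / aeval ![s, t, 1] g, aeval ![s, t, 1] h₂ / aeval ![s, t, 1] g] := by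
  classical
  have : Infinite k := IsAlgClosed.instInfinite
  have hg0 : g ≠ 0 := hirr.ne_zero
  have hG0 : aeval ![s, t, 1] g ≠ (0 : F) := fun h0 => hg0 (form_zero hst hg h0)
  set G : F := aeval ![s, t, 1] g with hG
  set A : F := aeval ![s, t, 1] h₁ with hA
  set B : F := aeval ![s, t, 1] h₂ with hB
  rw [algebraicIndependent_iff]
  intro H hH
  by_contra hH0
  set d := H.totalDegree with hd
  -- the form
  let Φ : MvPolynomial (Fin 3) k := ∑ m ∈ H.support, C (coeff m H) * h₁ ^ (m 0) * h₂ ^ (m 1) * g ^ (d - (m 0 + m 1))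
  have hm : ∀ m ∈ H.support, m 0 + m 1 ≤ d := by
    intro m hm
    have h1 := le_totalDegree hm
    rw [Finsupp.sum_fintype _ _ (by simp), Fin.sum_univ_two] at h1
    exact h1
  have hΦhom : Φ.IsHomogeneous (3 * d) := by
    refine IsHomogeneous.sum _ _ _ fun m hm' => ?_
    have h1 := (((isHomogeneous_C (Fin 3) (coeff m H)).mul (hh₁.pow (m 0))).mul (hh₂.pow (m 1))).mul
      (hg.pow (d - (m 0 + m 1)))
    have h2 : 0 + 3 * m 0 + 3 * m 1 + 3 * (d - (m 0 + m 1)) = 3 * d := by
      have := hm m hm'
      omega
    rw [h2] at h1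
    exact h1
  have hΦ0 : Φ = 0 := by
    apply form_zero hst hΦhom
    have h1 : aeval ![s, t, 1] Φ = G ^ d * aeval ![A / G, B / G] H := by
      rw [aeval_eq_eval₂Hom ![A / G, B / G], coe_eval₂Hom, eval₂_eq', Finset.mul_sum]
      change aeval ![s, t, 1] (∑ m ∈ H.support, C (coeff m H) * h₁ ^ (m 0) * h₂ ^ (m 1) *
        g ^ (d - (m 0 + m 1))) = _
      rw [map_sum]
      refine Finset.sum_congr rfl fun m hm' => ?_
      rw [map_mul, map_mul, map_mul, map_pow, map_pow, map_pow, aeval_C, ← hG, ← hA, ← hB, Fin.prod_univ_two]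
      simp only [Matrix.cons_val_zero, Matrix.cons_val_one]
      have h2 : G ^ d = G ^ (m 0) * G ^ (m 1) * G ^ (d - (m 0 + m 1)) := by
        rw [← pow_add, ← pow_add]
        congr 1
        have := hm m hm'
        omega
      rw [h2, div_pow, div_pow]
      field_simp
    rw [h1, hH, mul_zero]
  -- modulo `g`
  have hprime : Prime g := hirr.prime
  haveI hP : (Ideal.span {g}).IsPrime := (Ideal.span_singleton_prime hg0).mpr hprime
  let q : MvPolynomial (Fin 3) k →ₐ[k] (MvPolynomial (Fin 3) k ⧸ Ideal.span {g}) :=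
    Ideal.Quotient.mkₐ k (Ideal.span {g})
  have hqg : q g = 0 := by
    change Ideal.Quotient.mk (Ideal.span {g}) g = 0
    rw [Ideal.Quotient.eq_zero_iff_mem]
    exact Ideal.mem_span_singleton_self g
  have hrel : aeval ![q h₁, q h₂] (homogeneousComponent d H) = 0 := by
    have h1 : q Φ = aeval ![q h₁, q h₂] (homogeneousComponent d H) := by
      change q (∑ m ∈ H.support, C (coeff m H) * h₁ ^ (m 0) * h₂ ^ (m 1) * g ^ (d - (m 0 + m 1))) = _
      rw [map_sum, homogeneousComponent_apply, map_sum, ← Finset.sum_filter_add_sum_filter_not H.support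
        (fun m => Finsupp.degree m = d)]
      have h2 : ∑ m ∈ H.support with ¬ Finsupp.degree m = d, q (C (coeff m H) * h₁ ^ (m 0) * h₂ ^ (m 1) *
          g ^ (d - (m 0 + m 1))) = 0 := by
        apply Finset.sum_eq_zero
        intro m hm'
        rw [Finset.mem_filter] at hm'
        have h3 := hm m hm'.1
        have h4 : m 0 + m 1 ≠ d := by
          intro h5
          apply hm'.2
          rw [Finsupp.degree_eq_sum, Fin.sum_univ_two]
          exact h5
        rw [map_mul, map_pow q g, hqg, zero_pow (by omega), mul_zero]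
      rw [h2, add_zero]
      refine Finset.sum_congr rfl fun m hm' => ?_
      rw [Finset.mem_filter] at hm'
      have h5 : m 0 + m 1 = d := by
        have := hm'.2
        rw [Finsupp.degree_eq_sum, Fin.sum_univ_two] at this
        exact this
      rw [h5, Nat.sub_self, pow_zero, mul_one, map_mul, map_mul, map_pow, map_pow, aeval_monomial,
        Finsupp.prod_fintype _ _ (by simp), Fin.prod_univ_two]
      simp only [Matrix.cons_val_zero, Matrix.cons_val_one]
      have h6 : q (C (coeff m H)) = algebraMap k _ (coeff m H) := q.commutes (coeff m H)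
      rw [h6, mul_assoc]
    rw [← h1, hΦ0, map_zero]
  obtain ⟨a, b, hab, h⟩ := prop_of_rel (exists_top hH0) (homogeneousComponent_isHomogeneous _ _) hrel
  have h1 : g ∣ C a * h₁ + C b * h₂ := by
    rw [← Ideal.mem_span_singleton, ← Ideal.Quotient.eq_zero_iff_mem]
    change q (C a * h₁ + C b * h₂) = 0
    rw [map_add, map_mul, map_mul, ← h]
    rfl
  obtain ⟨u, hu⟩ := h1
  have hne : C a * h₁ + C b * h₂ ≠ 0 := by
    intro h0
    obtain ⟨-, h2, h3⟩ := ind 0 a b (by rw [map_zero, zero_mul, zero_add]; exact h0)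
    rcases hab with h4 | h4
    · exact h4 h2
    · exact h4 h3
  have hhom : (C a * h₁ + C b * h₂).IsHomogeneous 3 := by
    have h2 := (isHomogeneous_C (Fin 3) a).mul hh₁
    have h3 := (isHomogeneous_C (Fin 3) b).mul hh₂
    rw [zero_add] at h2 h3
    exact h2.add h3
  have hu0 : u ≠ 0 := by
    rintro rfl
    exact hne (by rw [hu, mul_zero])
  have hdeg : u.totalDegree = 0 := by
    have h2 := hhom.totalDegree hne
    rw [hu, totalDegree_mul_of_isDomain hg0 hu0, hg.totalDegree hg0] at h2
    omega
  rw [totalDegree_eq_zero_iff_eq_C] at hdeg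
  obtain ⟨-, h2, h3⟩ := ind (- coeff 0 u) a b (by
    rw [map_neg, add_assoc, hu]
    conv_lhs => rw [hdeg]
    rw [coeff_C]
    simp
    ring)
  rcases hab with h4 | h4
  · exact h4 h2
  · exact h4 h3

end rel

lemma exists_compl' {k : Type u} [Field k] {e : Fin 3 → k} (he : e ≠ 0) : ∃ e₁ e₂ : Fin 3 → k, ∀ a b c : k,
    (∀ i, a * e i + b * e₁ i + c * e₂ i = 0) → a = 0 ∧ b = 0 ∧ c = 0 := by
  obtain ⟨i, hi⟩ := Function.ne_iff.mp he
  simp only [Pi.zero_apply] at hi
  fin_cases i
  · refine ⟨![0, 1, 0], ![0, 0, 1], fun a b c h => ?_⟩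
    have h0 := h 0
    have h1 := h 1
    have h2 := h 2
    simp only [Matrix.cons_val_zero, Matrix.cons_val_one, Matrix.cons_val, mul_zero, mul_one, add_zero] at h0 h1 h2
    have ha : a = 0 := (mul_eq_zero.mp h0).resolve_right hi
    rw [ha] at h1 h2
    exact ⟨ha, by linear_combination h1, by linear_combination h2⟩
  · refine ⟨![1, 0, 0], ![0, 0, 1], fun a b c h => ?_⟩
    have h0 := h 0
    have h1 := h 1
    have h2 := h 2
    simp only [Matrix.cons_val_zero, Matrix.cons_val_one, Matrix.cons_val, mul_zero, mul_one, add_zero] at h0 h1 h2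
    have ha : a = 0 := (mul_eq_zero.mp h1).resolve_right hi
    rw [ha] at h0 h2
    exact ⟨ha, by linear_combination h0, by linear_combination h2⟩
  · refine ⟨![1, 0, 0], ![0, 1, 0], fun a b c h => ?_⟩
    have h0 := h 0
    have h1 := h 1
    have h2 := h 2
    simp only [Matrix.cons_val_zero, Matrix.cons_val_one, Matrix.cons_val, mul_zero, mul_one, add_zero] at h0 h1 h2
    have ha : a = 0 := (mul_eq_zero.mp h2).resolve_right hi
    rw [ha] at h0 h1
    exact ⟨ha, by linear_combination h0, by linear_combination h1⟩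

lemma range_pair {E : Type*} (x y : E) : Set.range ![x, y] = {x, y} := by
  ext z
  simp only [Set.mem_range, Fin.exists_fin_two, Matrix.cons_val_zero, Matrix.cons_val_one,
    Set.mem_insert_iff, Set.mem_singleton_iff]
  constructor
  · rintro (h | h)
    · exact Or.inl h.symm
    · exact Or.inr h.symm
  · rintro (h | h)
    · exact Or.inl h.symm
    · exact Or.inr h.symm

/-- Every independent pair in a field of transcendence degree two is a transcendence basis. -/
theorem alg_of_ind {k E : Type u} [Field k] [Field E] [Algebra k E] {s t x y : E} (h : AlgebraicIndependent k ![s, t])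
    (ha : Algebra.IsAlgebraic (IntermediateField.adjoin k {s, t}) E) (h' : AlgebraicIndependent k ![x, y]) :
    Algebra.IsAlgebraic (IntermediateField.adjoin k {x, y}) E := by
  have h0 : Algebra.IsAlgebraic (Algebra.adjoin k (Set.range ![s, t])) E := by
    rw [range_pair]
    exact ⟨fun z => IntermediateField.isAlgebraic_adjoin_iff.mp (ha.isAlgebraic z)⟩
  have h1 : IsTranscendenceBasis k ![s, t] := h.isTranscendenceBasis_iff_isAlgebraic.mpr h0
  have h2 := h1.lift_cardinalMk_eq_trdeg
  have h3 : IsTranscendenceBasis k ![x, y] :=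
    h'.isTranscendenceBasis_of_lift_trdeg_le_of_finite (le_of_eq h2.symm)
  have h4 := h3.isAlgebraic_field
  rwa [range_pair] at h4

/-- The coordinates `z`, `w` are algebraically independent. -/
theorem Net.zw {k F : Type u} [Field k] [IsAlgClosed k] [CharZero k] [Field F] [Algebra k F] (D : Net k F) :
    AlgebraicIndependent k ![D.z, D.w] := by
  classical
  have : Infinite k := IsAlgClosed.instInfinite
  obtain ⟨e₀, he₀, -, hsm⟩ := D.sm
  obtain ⟨e₁, e₂, hb⟩ := exists_compl' he₀
  have hfe : ∀ e, (fe D.f e).IsHomogeneous 3 := by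
    intro e
    refine IsHomogeneous.sum _ _ _ fun i _ => ?_
    have h1 := (isHomogeneous_C (Fin 3) (e i)).mul (D.hom i)
    rwa [zero_add] at h1
  have hirr := irr_of_smoC (hfe e₀) hsm
  have hind : ∀ a b c : k, C a * fe D.f e₀ + C b * fe D.f e₁ + C c * fe D.f e₂ = 0 → a = 0 ∧ b = 0 ∧ c = 0 := by
    intro a b c h
    have h1 : fe D.f (fun i => a * e₀ i + b * e₁ i + c * e₂ i) = 0 := by
      rw [← h]
      unfold fe
      simp only [Fin.sum_univ_three, map_add, map_mul]
      ring
    have h2 := D.ind _ h1
    exact hb a b c fun i => congrFun h2 i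
  have hr := ratio_ind D.st (hfe e₀) (hfe e₁) (hfe e₂) hirr hind
  -- the values of the nets
  let P : (Fin 3 → k) → F := fun e => aeval ![D.s, D.t, 1] (fe D.f e)
  let q : (Fin 3 → k) → F := fun e => ∑ i, algebraMap k F (e i) * qv (ext F D.Q i) ![D.z, D.w, 1]
  have hP : ∀ e, P e = ∑ i, algebraMap k F (e i) * aeval ![D.s, D.t, 1] (D.f i) := by
    intro e
    change aeval ![D.s, D.t, 1] (∑ i, C (e i) * D.f i) = _
    rw [map_sum]
    refine Finset.sum_congr rfl fun i _ => ?_
    rw [map_mul, aeval_C]
  have hqP : ∀ e e', q e * P e' = q e' * P e := by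
    intro e e'
    rw [hP, hP]
    simp only [q, Finset.sum_mul_sum]
    rw [Finset.sum_comm]
    refine Finset.sum_congr rfl fun i _ => Finset.sum_congr rfl fun j _ => ?_
    have h1 := D.eqn j i
    linear_combination algebraMap k F (e' i) * algebraMap k F (e j) * h1
  have hP0 : ∀ e, e ≠ 0 → P e ≠ 0 := by
    intro e he h0
    exact he (D.ind e (form_zero D.st (hfe e) h0))
  have hq0 : ∀ e, e ≠ 0 → q e ≠ 0 := by
    intro e he h0
    have hne : (![D.z, D.w, 1] : Fin 3 → F) ≠ 0 := by
      intro h
      have := congrFun h 2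
      simp at this
    obtain ⟨j, hj⟩ := bpf (l1 k F D.Q D.smo) hne
    apply hj
    let t : Fin 3 → k := fun a => if a = j then 1 else 0
    have h1 : q t = qv (ext F D.Q j) ![D.z, D.w, 1] := by
      simp only [q, t]
      rw [Finset.sum_eq_single j]
      · rw [if_pos rfl, map_one, one_mul]
      · intro i _ hij
        rw [if_neg hij, map_zero, zero_mul]
      · intro h
        exact absurd (Finset.mem_univ j) h
    rw [← h1]
    have h2 := hqP e t
    rw [h0, zero_mul] at h2
    exact (mul_eq_zero.mp h2.symm).resolve_right (hP0 e he)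
  -- the ratios are in `k (z, w)`
  have hmq : ∀ e, q e ∈ IntermediateField.adjoin k {D.z, D.w} := by
    intro e
    have hz : D.z ∈ IntermediateField.adjoin k {D.z, D.w} := IntermediateField.subset_adjoin k _ (Or.inl rfl)
    have hw : D.w ∈ IntermediateField.adjoin k {D.z, D.w} := IntermediateField.subset_adjoin k _ (Or.inr rfl)
    have hv : ∀ i, (![D.z, D.w, 1] : Fin 3 → F) i ∈ IntermediateField.adjoin k {D.z, D.w} := by
      intro i
      fin_cases i
      · exact hz
      · exact hw
      · exact one_mem _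
    refine sum_mem fun i _ => mul_mem (IntermediateField.algebraMap_mem _ _) ?_
    refine sum_mem fun a _ => sum_mem fun b _ => mul_mem (mul_mem ?_ (hv a)) (hv b)
    exact IntermediateField.algebraMap_mem _ _
  have hratio : ∀ e, P e / P e₀ = q e / q e₀ := by
    intro e
    rw [div_eq_div_iff (hP0 e₀ he₀) (hq0 e₀ he₀)]
    linear_combination - hqP e e₀
  have hle : IntermediateField.adjoin k {P e₁ / P e₀, P e₂ / P e₀} ≤ IntermediateField.adjoin k {D.z, D.w} := by
    rw [IntermediateField.adjoin_le_iff]
    rintro x (rfl | rfl)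
    · change P e₁ / P e₀ ∈ IntermediateField.adjoin k {D.z, D.w}
      rw [hratio]
      exact div_mem (hmq _) (hmq _)
    · change P e₂ / P e₀ ∈ IntermediateField.adjoin k {D.z, D.w}
      rw [hratio]
      exact div_mem (hmq _) (hmq _)
  -- `F` is algebraic over `k (z, w)`
  have halgst : Algebra.IsAlgebraic (IntermediateField.adjoin k {D.s, D.t}) F := by
    have : FiniteDimensional (IntermediateField.adjoin k {D.s, D.t}) F :=
      Module.finite_of_finrank_pos (by rw [D.deg]; norm_num)
    exact Algebra.IsAlgebraic.of_finite _ _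
  have h1 := alg_of_ind D.st halgst hr
  refine Pool.Agent.Helper70.KX.ind_of_gen D.st ⟨fun x => ?_⟩
  obtain ⟨p, hp0, hp⟩ := h1.isAlgebraic x
  let i : IntermediateField.adjoin k {P e₁ / P e₀, P e₂ / P e₀} →+* IntermediateField.adjoin k {D.z, D.w} :=
    (IntermediateField.inclusion hle : _ →ₐ[k] _)
  refine ⟨p.map i, (Polynomial.map_ne_zero_iff i.injective).mpr hp0, ?_⟩
  rw [Polynomial.aeval_def, Polynomial.eval₂_map]
  exact hp

end Pool.Agent.NT28
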