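import Mathlib
import Pool.Agent.Helper9.NS
import Pool.Agent.Helper28.NT.Defs
import Pool.Agent.Helper15.GT.RBase
import Pool.Agent.Helper70.KX.Fib
import Pool.Agent.Helper17.FF.RR

/-!
# NT, block E: Voisin's property for the combinations of places of an elliptic surface with zero image in the base
-/

set_option linter.unusedSectionVars false

namespace Pool.Agent.NT28

open VC VF Function Pool.Agent.Helper21.TO Pool.Agent.Helper21.TB Pool.Agent.Helper15.GT
open Pool.Agent.Helper51.VN (Harm)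

universe u

section min

variable {k K : Type u} [Field k] [IsAlgClosed k] [CharZero k] [Field K] [Algebra k K]

/-- The minimal divisor of a Weierstrass equation with non-constant invariant `j`. -/
theorem exists_min (hK : IsFunctionField k K) {a b : K} (ha : a ≠ 0) (hb : b ≠ 0)
    (hab : ∀ c d : k, c • a ^ 3 = d • b ^ 2 → c = 0 ∧ d = 0) (D : Place k K →₀ ℤ)
    (h4 : ∀ P : Place k K, 0 ≤ ord P.ring a + 4 * D P) (h6 : ∀ P : Place k K, 0 ≤ ord P.ring b + 6 * D P) :
    ∃ E : Place k K →₀ ℤ, (∀ P : Place k K, 0 ≤ ord P.ring a + 4 * E P) ∧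
      (∀ P : Place k K, 0 ≤ ord P.ring b + 6 * E P) ∧
      (∀ P : Place k K, ord P.ring a + 4 * E P < 4 ∨ ord P.ring b + 6 * E P < 6) ∧
      (E.sum fun _ m => m) ≤ (D.sum fun _ m => m) ∧ 1 ≤ (E.sum fun _ m => m) := by
  classical
  let e : Place k K → ℤ := fun P => max (-(ord P.ring a / 4)) (-(ord P.ring b / 6))
  let E : Place k K →₀ ℤ := Finsupp.onFinset ((FF.dv hK a).support ∪ (FF.dv hK b).support) e (by
    intro P hP
    by_contra hcon
    rw [Finset.mem_union, not_or, Finsupp.notMem_support_iff, Finsupp.notMem_support_iff] at hcon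
    obtain ⟨h1, h2⟩ := hcon
    rw [FF.dv_apply] at h1 h2
    apply hP
    change max (-(ord P.ring a / 4)) (-(ord P.ring b / 6)) = 0
    rw [h1, h2]
    rfl)
  have hE : ∀ P, E P = max (-(ord P.ring a / 4)) (-(ord P.ring b / 6)) := fun P => rfl
  have hA : ∀ P : Place k K, 0 ≤ ord P.ring a + 4 * E P := by
    intro P
    rw [hE]
    omega
  have hB : ∀ P : Place k K, 0 ≤ ord P.ring b + 6 * E P := by
    intro P
    rw [hE]
    omega
  have hD : ∀ P, E P ≤ D P := by
    intro P
    rw [hE]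
    have := h4 P
    have := h6 P
    omega
  refine ⟨E, hA, hB, ?_, ?_, ?_⟩
  · intro P
    rw [hE]
    omega
  · rw [← FF.deg_eq, ← FF.deg_eq]
    exact FF.deg_mono hD
  · rw [← FF.deg_eq]
    have h1 : FF.deg (FF.dv hK a + 4 • E) = 4 * FF.deg E := by
      rw [map_add, FF.deg_dv hK ha, zero_add, map_nsmul, nsmul_eq_mul]
      norm_num
    have h2 : FF.deg (FF.dv hK b + 6 • E) = 6 * FF.deg E := by
      rw [map_add, FF.deg_dv hK hb, zero_add, map_nsmul, nsmul_eq_mul]
      norm_num
    have h3 : ∀ P, 0 ≤ (FF.dv hK a + 4 • E) P := by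
      intro P
      rw [Finsupp.add_apply, Finsupp.smul_apply, FF.dv_apply, nsmul_eq_mul]
      exact_mod_cast hA P
    have h5 : ∀ P, 0 ≤ (FF.dv hK b + 6 • E) P := by
      intro P
      rw [Finsupp.add_apply, Finsupp.smul_apply, FF.dv_apply, nsmul_eq_mul]
      exact_mod_cast hB P
    have h7 : 0 ≤ FF.deg E := by
      have := FF.deg_nonneg h3
      omega
    by_contra hcon
    have h8 : FF.deg E = 0 := by omega
    have h9 := FF.eq_zero_of_deg h3 (by rw [h1, h8, mul_zero])
    have h10 := FF.eq_zero_of_deg h5 (by rw [h2, h8, mul_zero])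
    have h11 : FF.dv hK (a ^ 3 / b ^ 2) = 0 := by
      rw [FF.dv_div hK (pow_ne_zero 3 ha) (pow_ne_zero 2 hb), FF.dv_pow hK ha, FF.dv_pow hK hb,
        eq_neg_of_add_eq_zero_left h9, eq_neg_of_add_eq_zero_left h10]
      ext P
      simp only [Finsupp.sub_apply, Finsupp.smul_apply, Finsupp.neg_apply, nsmul_eq_mul, Finsupp.zero_apply]
      push_cast
      ring
    obtain ⟨c, hc⟩ := FF.exists_const_of_dv_eq_zero hK (f := a ^ 3 / b ^ 2) (fun P => by
      rw [← FF.dv_apply hK, h11, Finsupp.zero_apply])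
    have h12 : (1 : k) • a ^ 3 = c • b ^ 2 := by
      rw [one_smul, Algebra.smul_def, hc, div_mul_cancel₀ _ (pow_ne_zero 2 hb)]
    exact one_ne_zero (hab 1 c h12).1

end min

/-- BLOCK E. -/
theorem e : StmtE.{u} := by
  intro k K E _ _ _ _ _ _ _ _ _ hK g hg a b hdisc hab x y hx he hgen D h4 h6 p hp M ξ hξ n hn c hc
  classical
  have ha : a ≠ 0 := by
    rintro rfl
    exact one_ne_zero (hab 1 0 (by simp)).1
  have hb : b ≠ 0 := by
    rintro rfl
    exact one_ne_zero (hab 0 1 (by simp)).2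
  obtain ⟨E', hA, hB, hmin, hle, h1⟩ := exists_min hK ha hb hab D h4 h6
  obtain ⟨L, Ω, _, _, _, _, _, _, _, _, T, f, hTa, hTb, hfj, hf, -⟩ :=
    Pool.Agent.Helper70.KX.exists_fibration hK a b hdisc x y hx he hgen
  have hnp : ¬ ∃ u : K, u ≠ 0 ∧ ∀ P : Place k K, ord P.ring u = E' P := by
    rintro ⟨u, hu, h⟩
    have h2 : FF.dv hK u = E' := by
      ext P
      rw [FF.dv_apply, h]
    have h3 := FF.deg_dv hK hu
    rw [h2, FF.deg_eq] at h3
    omega
  choose z hz0 hzb hz using hc
  have hη : (fun i => f (ξ i)) ≠ 0 := by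
    intro h0
    apply hξ
    funext i
    exact (map_eq_zero_iff f f.toRingHom.injective).mp (congrFun h0 i)
  have hvan : vanB k (fun i => f (ξ i)) = van k ξ := van_hom f ξ
  have hn' : (E'.sum fun _ m => m) + g ≤ n := by omega
  have key := fun (b' : Fin n → (proj k (vanB k (fun i => f (ξ i)))).Cycles) ha' =>
    voisin_np T hg E' (fun P _ => by rw [hTa]; exact hA P) (fun P _ => by rw [hTb]; exact hB P)
      (fun P => by
        rcases hmin P with h | h
        · left
          rw [hTa]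
          exact ⟨ha, h⟩
        · right
          rw [hTb]
          exact ⟨hb, h⟩) hnp (fun i => f (ξ i)) hη (fun σ hσ i => hf σ hσ _) hn' b' ha'
  rw [hvan] at key
  refine key c fun i φ κ' hφ hκ' hcl _ => ?_
  have h2 : ∀ w : RPl k E, φ (evP ξ hξ w) = κ' (w.pl T.hF (IsScalarTower.toAlgHom k K E)) := by
    intro w
    obtain ⟨s, hs, hs', hv, he'⟩ := exists_evP ξ hξ w
    rw [he']
    refine hcl _ s hs hs' ?_
    rw [← hfj]
    exact clo_pl T.hF (IsScalarTower.toAlgHom k K E) f hv
  have h3 : Finsupp.linearCombination ℤ κ' ((z i).mapDomain (RPl.pl T.hF (IsScalarTower.toAlgHom k K E))) = 0 := by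
    have h4 := hzb i
    rw [h4, map_zero]
  rw [hz i, Finsupp.linearCombination_mapDomain]
  rw [Finsupp.linearCombination_mapDomain] at h3
  rw [← h3]
  congr 1
  congr 1
  funext w
  exact h2 w

end Pool.Agent.NT28
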