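import Mathlib
import Pool.Agent.Helper28.NT.Sing
import Pool.Agent.Helper40.NT.L1

/-!
# NT, block P5: a general pencil of conics through a given singular conic
-/

set_option linter.unusedSectionVars false

namespace Pool.Agent.NT28

universe u

section disc

variable {k : Type u} [Field k]

/-- The restriction of the net to a line has a member with two different zeros. -/
theorem disc_exists {Q : Fin 3 → Matrix (Fin 3) (Fin 3) k} (hQ : Smo Q) {u w : Fin 3 → k} (huw : crs u w ≠ 0) :
    ∃ e : Fin 3 → k, bil (qm Q e) u w ^ 2 - bil (qm Q e) u u * bil (qm Q e) w w ≠ 0 := by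
  by_contra hcon
  push Not at hcon
  simp only [bil_qm] at hcon
  have hu : u ≠ 0 := by
    rintro rfl
    apply huw
    apply vec_ext <;> simp only [crs0, crs1, crs2, Pi.zero_apply] <;> ring
  obtain ⟨j, hj⟩ := bpf hQ hu
  -- the normalised parameter
  let s : Fin 3 → k := fun i => if i = j then (bv Q u u j)⁻¹ else 0
  have hs : ∀ b : Fin 3 → k, dot s b = (bv Q u u j)⁻¹ * b j := by
    intro b
    simp only [dot, s]
    fin_cases j <;> simp
  have hj' : bv Q u u j ≠ 0 := hj
  have hα : dot s (bv Q u u) = 1 := by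
    rw [hs, inv_mul_cancel₀ hj']
  set d := dot s (bv Q u w) with hd
  have hadd : ∀ (c : k) (e b : Fin 3 → k), dot (fun i => e i + c * s i) b = dot e b + c * dot s b := by
    intro c e b
    simp only [dot]
    ring
  have hβ : ∀ e, dot e (bv Q u w) = dot e (bv Q u u) * d := by
    intro e
    have h1 := hcon (fun i => e i + (- dot e (bv Q u u)) * s i)
    rw [hadd, hadd, hadd, hα] at h1
    have h2 : (dot e (bv Q u w) + (- dot e (bv Q u u)) * d) ^ 2 = 0 := by
      linear_combination h1
    have h3 := pow_eq_zero_iff (two_ne_zero) |>.mp h2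
    linear_combination h3
  have hγ' : ∀ e, dot e (bv Q u u) ≠ 0 → dot e (bv Q w w) = dot e (bv Q u u) * d ^ 2 := by
    intro e he
    have h1 := hcon e
    rw [hβ] at h1
    have h2 : dot e (bv Q u u) * (dot e (bv Q u u) * d ^ 2 - dot e (bv Q w w)) = 0 := by
      linear_combination h1
    have h3 := (mul_eq_zero.mp h2).resolve_left he
    linear_combination - h3
  have hγ : ∀ e, dot e (bv Q w w) = dot e (bv Q u u) * d ^ 2 := by
    intro e
    by_cases he : dot e (bv Q u u) = 0
    · have h1 := hγ' (fun i => e i + 1 * s i) (by rw [hadd, he, hα]; simp)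
      have h2 := hγ' s (by rw [hα]; exact one_ne_zero)
      rw [hadd, hadd, he, hα] at h1
      rw [hα] at h2
      rw [he]
      linear_combination h1 - h2
    · exact hγ' e he
  let z : Fin 3 → k := fun a => w a - d * u a
  have hz0 : z ≠ 0 := by
    intro h0
    apply huw
    refine crs_of_prop (c := d) fun a => ?_
    have := congrFun h0 a
    simp only [z, Pi.zero_apply] at this
    linear_combination this
  obtain ⟨i, hi⟩ := bpf hQ hz0
  apply hi
  have hsy := sym_apply (hQ.1 i)
  have e0 : Q i 1 0 = Q i 0 1 := hsy 1 0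
  have e1 : Q i 2 0 = Q i 0 2 := hsy 2 0
  have e2 : Q i 2 1 = Q i 1 2 := hsy 2 1
  have h1 : qv (Q i) z = bv Q w w i - 2 * d * bv Q u w i + d ^ 2 * bv Q u u i := by
    simp only [qv, bv, bil, Fin.sum_univ_three, z, e0, e1, e2]
    ring
  let t : Fin 3 → k := fun a => if a = i then 1 else 0
  have ht : ∀ b : Fin 3 → k, dot t b = b i := by
    intro b
    simp only [dot, t]
    fin_cases i <;> simp
  have h2 := hβ t
  have h3 := hγ t
  rw [ht, ht] at h2 h3
  rw [h1, h2, h3]
  ring

variable [Infinite k]

/-- Three open conditions. -/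
theorem exists_e1 {Q : Fin 3 → Matrix (Fin 3) (Fin 3) k} (hQ : Smo Q) {u w w' : Fin 3 → k} (h1 : crs u w ≠ 0)
    (h2 : crs u w' ≠ 0) : ∃ e : Fin 3 → k, bil (qm Q e) u u ≠ 0 ∧
      bil (qm Q e) u w ^ 2 - bil (qm Q e) u u * bil (qm Q e) w w ≠ 0 ∧
      bil (qm Q e) u w' ^ 2 - bil (qm Q e) u u * bil (qm Q e) w' w' ≠ 0 := by
  let L : (Fin 3 → k) → MvPolynomial (Fin 3) k := fun b =>
    MvPolynomial.X 0 * MvPolynomial.C (b 0) + MvPolynomial.X 1 * MvPolynomial.C (b 1) +
      MvPolynomial.X 2 * MvPolynomial.C (b 2)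
  have hL : ∀ e b, MvPolynomial.eval e (L b) = dot e b := by
    intro e b
    simp only [L, map_add, map_mul, MvPolynomial.eval_X, MvPolynomial.eval_C, dot]
  have hu : u ≠ 0 := by
    rintro rfl
    apply h1
    apply vec_ext <;> simp only [crs0, crs1, crs2, Pi.zero_apply] <;> ring
  have hp1 : L (bv Q u u) ≠ 0 := by
    intro h0
    obtain ⟨j, hj⟩ := bpf hQ hu
    apply hj
    let t : Fin 3 → k := fun a => if a = j then 1 else 0
    have h3 := hL t (bv Q u u)
    rw [h0, map_zero] at h3
    have h4 : dot t (bv Q u u) = bv Q u u j := by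
      simp only [dot, t]
      fin_cases j <;> simp
    rw [h4] at h3
    exact h3.symm
  have hp2 : ∀ w, crs u w ≠ 0 → L (bv Q u w) ^ 2 - L (bv Q u u) * L (bv Q w w) ≠ 0 := by
    intro w hw h0
    obtain ⟨e, he⟩ := disc_exists hQ hw
    apply he
    rw [bil_qm, bil_qm, bil_qm, ← hL, ← hL, ← hL, ← map_pow, ← map_mul, ← map_sub, h0, map_zero]
  have hp := mul_ne_zero hp1 (mul_ne_zero (hp2 w h1) (hp2 w' h2))
  obtain ⟨e, he⟩ : ∃ e, MvPolynomial.eval e (L (bv Q u u) * ((L (bv Q u w) ^ 2 - L (bv Q u u) * L (bv Q w w)) *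
      (L (bv Q u w') ^ 2 - L (bv Q u u) * L (bv Q w' w')))) ≠ 0 := by
    by_contra hcon
    push Not at hcon
    exact hp (MvPolynomial.funext fun e => by rw [hcon e, map_zero])
  refine ⟨e, ?_, ?_, ?_⟩
  · intro h0
    apply he
    rw [map_mul, hL, ← bil_qm, h0, zero_mul]
  · intro h0
    apply he
    rw [map_mul, map_mul, map_sub, map_pow, map_mul, hL, hL, hL, ← bil_qm, ← bil_qm, ← bil_qm, h0, zero_mul,
      mul_zero]
  · intro h0
    apply he
    rw [map_mul, map_mul (MvPolynomial.eval e) (L (bv Q u w) ^ 2 - _), map_sub (MvPolynomial.eval e) (L (bv Q u w') ^ 2),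
      map_pow (MvPolynomial.eval e) (L (bv Q u w')), map_mul (MvPolynomial.eval e) (L (bv Q u u)) (L (bv Q w' w')),
      hL e (bv Q u w'), hL e (bv Q u u), hL e (bv Q w' w'), ← bil_qm, ← bil_qm, ← bil_qm, h0, mul_zero, mul_zero]

end disc

section pts

variable {k : Type u} [Field k] [IsAlgClosed k] [CharZero k]

lemma ext_self (Q : Fin 3 → Matrix (Fin 3) (Fin 3) k) : ext k Q = Q := by
  funext i
  ext a b
  rfl

/-- Two points of a conic on a line through a point outside the conic. -/
lemma two_points {A : Matrix (Fin 3) (Fin 3) k} (hA : A.transpose = A) {u w : Fin 3 → k} (h0 : bil A u u ≠ 0)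
    (h1 : bil A u w ^ 2 - bil A u u * bil A w w ≠ 0) : ∃ s t : k, s ≠ t ∧
      qv A (fun a => s * u a + w a) = 0 ∧ qv A (fun a => t * u a + w a) = 0 := by
  obtain ⟨r, hr⟩ := IsAlgClosed.exists_pow_nat_eq (bil A u w ^ 2 - bil A u u * bil A w w) (n := 2) (by norm_num)
  have hr0 : r ≠ 0 := by
    rintro rfl
    apply h1
    rw [← hr]
    ring
  have e0 : A 1 0 = A 0 1 := sym_apply hA 1 0
  have e1 : A 2 0 = A 0 2 := sym_apply hA 2 0
  have e2 : A 2 1 = A 1 2 := sym_apply hA 2 1
  have key : ∀ s : k, qv A (fun a => s * u a + w a) = bil A u u * s ^ 2 + 2 * bil A u w * s + bil A w w := by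
    intro s
    simp only [qv, bil, Fin.sum_univ_three, e0, e1, e2]
    ring
  refine ⟨(- bil A u w + r) / bil A u u, (- bil A u w - r) / bil A u u, ?_, ?_, ?_⟩
  · intro h
    rw [div_left_inj' h0] at h
    have h3 : (2 : k) * r = 0 := by linear_combination h
    exact hr0 ((mul_eq_zero.mp h3).resolve_left two_ne_zero)
  · rw [key]
    field_simp
    linear_combination hr
  · rw [key]
    field_simp
    linear_combination hr

/-- A pencil of conics through a given singular conic whose four base points are different. -/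
theorem p5 {Q : Fin 3 → Matrix (Fin 3) (Fin 3) k} (hQ : Smo Q) {e l m v : Fin 3 → k} (he : e ≠ 0)
    (hd : dl Q e = 0) (h : ∀ (z : Fin 3 → k) (a : Fin 3), mv (qm Q e) z a + crs v z a / 2 = m a * dot l z) :
    ∃ D : Pts k k, D.Q = Q ∧ dot e D.f = 0 ∧ dot l (D.p 0) = 0 ∧ dot l (D.p 1) = 0 ∧ dot m (D.p 2) = 0 ∧
      dot m (D.p 3) = 0 ∧ D.IsV e 0 1 v ∧ ∃ c : k, ∀ a, e a = c * D.e 0 1 a := by
  have hs := qm_sym hQ.1 e
  -- `v = l × m`
  have hv0 : v ≠ 0 := by
    rintro rfl
    obtain ⟨a, b, hab⟩ := adj_ne hQ he hd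
    apply hab
    have h1 := adj_lines hs h a b
    rw [Pi.zero_apply, zero_mul] at h1
    have h4 : (4 : k) ≠ 0 := by norm_num
    have h5 : (4 : k) * (qm Q e).adjugate a b = 0 := by linear_combination h1
    exact (mul_eq_zero.mp h5).resolve_left h4
  have h01 : qm Q e 1 0 = qm Q e 0 1 := sym_apply hs 1 0
  have h02 : qm Q e 2 0 = qm Q e 0 2 := sym_apply hs 2 0
  have h12 : qm Q e 2 1 = qm Q e 1 2 := sym_apply hs 2 1
  have hv : v = crs l m := by
    have e0 := h ![1, 0, 0]
    have e1 := h ![0, 1, 0]
    have e2 := h ![0, 0, 1]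
    have f01 := e0 1
    have f02 := e0 2
    have f10 := e1 0
    have f12 := e1 2
    have f20 := e2 0
    have f21 := e2 1
    simp only [mv, Fin.sum_univ_three, crs0, crs1, crs2, dot, Matrix.cons_val_zero, Matrix.cons_val_one,
      Matrix.cons_val, mul_one, mul_zero, add_zero, zero_add, sub_zero, zero_sub] at f01 f02 f10 f12 f20 f21
    rw [h01] at f01
    rw [h02] at f02
    rw [h12] at f12
    apply vec_ext
    · rw [crs0]
      linear_combination f12 - f21
    · rw [crs1]
      linear_combination f20 - f02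
    · rw [crs2]
      linear_combination f01 - f10
  -- the points on the lines
  obtain ⟨i, hi⟩ := Function.ne_iff.mp hv0
  simp only [Pi.zero_apply] at hi
  let b : Fin 3 → k := fun a => if a = i then 1 else 0
  have hb : ∀ x : Fin 3 → k, dot x b = x i := by
    intro x
    simp only [dot, b]
    fin_cases i <;> simp
  have hvb : dot v b ≠ 0 := by rw [hb]; exact hi
  have hl0 : l ≠ 0 := by
    rintro rfl
    apply hv0
    rw [hv]
    apply vec_ext <;> simp only [crs0, crs1, crs2, Pi.zero_apply] <;> ring
  have hm0 : m ≠ 0 := by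
    rintro rfl
    apply hv0
    rw [hv]
    apply vec_ext <;> simp only [crs0, crs1, crs2, Pi.zero_apply] <;> ring
  have hlv : dot l v = 0 := by rw [hv]; simp only [dot, crs0, crs1, crs2]; ring
  have hmv : dot m v = 0 := by rw [hv]; simp only [dot, crs0, crs1, crs2]; ring
  -- `w = l × b`, `w' = m × b`
  have cw : ∀ n : Fin 3 → k, dot n v = 0 → ∀ a, crs v (crs n b) a = dot v b * n a := by
    intro n hn a
    rw [crs_crs]
    simp only
    rw [dot_comm v n, hn]
    ring
  have cne : ∀ n : Fin 3 → k, n ≠ 0 → dot n v = 0 → crs v (crs n b) ≠ 0 := by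
    intro n hn0 hn h0
    obtain ⟨a, ha⟩ := Function.ne_iff.mp hn0
    have h1 := cw n hn a
    rw [h0, Pi.zero_apply] at h1
    exact mul_ne_zero hvb ha h1.symm
  obtain ⟨e1, g1, g2, g3⟩ := exists_e1 hQ (cne l hl0 hlv) (cne m hm0 hmv)
  obtain ⟨s0, s1, hs01, q0, q1⟩ := two_points (qm_sym hQ.1 e1) g1 g2
  obtain ⟨s2, s3, hs23, q2, q3⟩ := two_points (qm_sym hQ.1 e1) g1 g3
  let p : Fin 4 → Fin 3 → k := ![fun a => s0 * v a + crs l b a, fun a => s1 * v a + crs l b a,
    fun a => s2 * v a + crs m b a, fun a => s3 * v a + crs m b a]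
  have hlp : ∀ s : k, dot l (fun a => s * v a + crs l b a) = 0 := by
    intro s
    have h1 : dot l (fun a => s * v a + crs l b a) = s * dot l v + dot (crs l b) l := by
      simp only [dot]
      ring
    rw [h1, hlv, dot_crs_left]
    ring
  have hmp : ∀ s : k, dot m (fun a => s * v a + crs m b a) = 0 := by
    intro s
    have h1 : dot m (fun a => s * v a + crs m b a) = s * dot m v + dot (crs m b) m := by
      simp only [dot]
      ring
    rw [h1, hmv, dot_crs_left]
    ring
  -- the conic `e`
  have hq : ∀ z : Fin 3 → k, qv (qm Q e) z = dot m z * dot l z := by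
    intro z
    have f0 := h z 0
    have f1 := h z 1
    have f2 := h z 2
    rw [crs0] at f0
    rw [crs1] at f1
    rw [crs2] at f2
    rw [qv_eq, bil_mv]
    unfold dot at *
    linear_combination z 0 * f0 + z 1 * f1 + z 2 * f2
  have hf0 : crs e e1 ≠ 0 := by
    intro h0
    obtain ⟨c, hc⟩ := prop_of_crs he h0
    apply g1
    have h1 : bil (qm Q e1) v v = c * qv (qm Q e) v := by
      rw [qv_eq, bil_qm, bil_qm]
      unfold dot
      rw [hc, hc, hc]
      ring
    rw [h1, hq, hlv]
    ring
  have hlam : ∀ z : Fin 3 → k, qv (qm Q e) z = 0 → qv (qm Q e1) z = 0 → ∃ c : k, ∀ j, qv (Q j) z = c * crs e e1 j := by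
    intro z h1 h2
    rw [qv_eq, bil_qm] at h1 h2
    apply prop_of_crs hf0
    have h3 : crs (bv Q z z) (crs e e1) = 0 := by
      rw [crs_crs]
      funext a
      rw [dot_comm _ e1, dot_comm _ e, h1, h2]
      simp
    apply vec_ext
    · have := congrFun h3 0
      rw [crs0] at this ⊢
      simp only [Pi.zero_apply, bv] at this ⊢
      simp only [qv_eq]
      linear_combination - this
    · have := congrFun h3 1
      rw [crs1] at this ⊢
      simp only [Pi.zero_apply, bv] at this ⊢
      simp only [qv_eq]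
      linear_combination - this
    · have := congrFun h3 2
      rw [crs2] at this ⊢
      simp only [Pi.zero_apply, bv] at this ⊢
      simp only [qv_eq]
      linear_combination - this
  have hp : ∀ i, ∃ c : k, ∀ j, qv (Q j) (p i) = c * crs e e1 j := by
    intro i
    apply hlam
    · rw [hq]
      fin_cases i
      · exact mul_eq_zero_of_right _ (hlp s0)
      · exact mul_eq_zero_of_right _ (hlp s1)
      · exact mul_eq_zero_of_left (hmp s2) _
      · exact mul_eq_zero_of_left (hmp s3) _
    · fin_cases i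
      · exact q0
      · exact q1
      · exact q2
      · exact q3
  choose lam hlam' using hp
  have same : ∀ (n : Fin 3 → k), n ≠ 0 → dot n v = 0 → ∀ s t : k, s ≠ t →
      crs (fun a => s * v a + crs n b a) (fun a => t * v a + crs n b a) ≠ 0 := by
    intro n hn0 hn s t hst h0
    apply cne n hn0 hn
    have h1 : ∀ a, crs (fun a => s * v a + crs n b a) (fun a => t * v a + crs n b a) a =
        (s - t) * crs v (crs n b) a := by
      intro a
      fin_cases a <;> simp only [crs0, crs1, crs2, Fin.zero_eta, Fin.mk_one, Fin.reduceFinMk] <;> ring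
    funext a
    have h2 := h1 a
    rw [h0, Pi.zero_apply] at h2
    exact (mul_eq_zero.mp h2.symm).resolve_left (sub_ne_zero.mpr hst)
  have diff : ∀ s t : k, crs (fun a => s * v a + crs l b a) (fun a => t * v a + crs m b a) ≠ 0 := by
    intro s t h0
    have h1 : dot v (crs (fun a => s * v a + crs l b a) (fun a => t * v a + crs m b a)) = dot v b ^ 2 := by
      rw [hv]
      simp only [dot, crs0, crs1, crs2]
      ring
    rw [h0] at h1
    apply hvb
    have h2 : dot v (0 : Fin 3 → k) = 0 := by simp [dot]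
    rw [h2] at h1
    exact pow_eq_zero_iff (two_ne_zero) |>.mp h1.symm
  have anti : ∀ x y : Fin 3 → k, crs x y ≠ 0 → crs y x ≠ 0 := by
    intro x y hxy h0
    apply hxy
    apply vec_ext
    · have := congrFun h0 0
      rw [crs0] at this ⊢
      simp only [Pi.zero_apply] at this ⊢
      linear_combination - this
    · have := congrFun h0 1
      rw [crs1] at this ⊢
      simp only [Pi.zero_apply] at this ⊢
      linear_combination - this
    · have := congrFun h0 2
      rw [crs2] at this ⊢
      simp only [Pi.zero_apply] at this ⊢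
      linear_combination - this
  let D : Pts k k :=
    { Q := Q
      smo := fun L _ _ => l1 k L Q hQ
      f := crs e e1
      f0 := hf0
      p := p
      ind := by
        intro i j hij
        fin_cases i <;> fin_cases j <;> first | exact absurd rfl hij | skip
        · exact same l hl0 hlv s0 s1 hs01
        · exact diff s0 s2
        · exact diff s0 s3
        · exact same l hl0 hlv s1 s0 hs01.symm
        · exact diff s1 s2
        · exact diff s1 s3
        · exact anti _ _ (diff s0 s2)
        · exact anti _ _ (diff s1 s2)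
        · exact same m hm0 hmv s2 s3 hs23
        · exact anti _ _ (diff s0 s3)
        · exact anti _ _ (diff s1 s3)
        · exact same m hm0 hmv s3 s2 hs23.symm
      lam := lam
      q := by
        intro i j
        rw [ext_self]
        exact hlam' i j }
  have hQN : D.QN = Q := ext_self Q
  have hV : D.IsV e 0 1 v := by
    constructor
    · intro a
      rw [hQN]
      have h1 := h (D.p 0) a
      have h2 : dot l (D.p 0) = 0 := hlp s0
      rw [h2] at h1
      linear_combination h1
    · intro a
      rw [hQN]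
      have h1 := h (D.p 1) a
      have h2 : dot l (D.p 1) = 0 := hlp s1
      rw [h2] at h1
      linear_combination h1
  have hef : dot e D.f = 0 := by
    change dot e (crs e e1) = 0
    rw [dot_comm, dot_crs_left]
  refine ⟨D, rfl, hef, hlp s0, hlp s1, hmp s2, hmp s3, hV, ?_⟩
  refine D.prop_e (by decide) hef ?_
  have h1 : bil (qm D.QN e) (D.p 0) (D.p 1) = - dot (D.p 0) (crs v (D.p 1)) / 2 := by
    rw [bil_mv]
    have a0 := hV.2 0
    have a1 := hV.2 1
    have a2 := hV.2 2
    unfold dot
    linear_combination D.p 0 0 * a0 + D.p 0 1 * a1 + D.p 0 2 * a2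
  have h2 : bil (qm D.QN e) (D.p 0) (D.p 1) = - dot (D.p 1) (crs v (D.p 0)) / 2 := by
    rw [bil_symm (qm_sym D.sym e), bil_mv]
    have a0 := hV.1 0
    have a1 := hV.1 1
    have a2 := hV.1 2
    unfold dot
    linear_combination D.p 1 0 * a0 + D.p 1 1 * a1 + D.p 1 2 * a2
  have h3 : dot (D.p 1) (crs v (D.p 0)) = - dot (D.p 0) (crs v (D.p 1)) := by
    simp only [dot, crs0, crs1, crs2]
    ring
  rw [h3] at h2
  linear_combination (1 / 2) * h1 + (1 / 2) * h2

end pts

end Pool.Agent.NT28
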